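import Pool.Agent.Q161.Bool4

/-!
# Indecomposables of a sum closed class with growth strictly between `1` and `φ`

The class is `Av(321, 3412, 2341, 51234)`. Its indecomposables of length `n ≥ 2` correspond to binary
words of length `n - 2` without factors `11` and `000`.
-/

set_option autoImplicit false

namespace Pool.Agent.Results.MP_9e0f03_co.BetweenOneAndPhi

open Q161.Cls Filter Topology

/-- There is a sum closed permutation class `C` such that the upper growth rate of the set of its
indecomposables lies strictly between `1` and the golden ratio. -/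
theorem result : ∃ C : Set P, IsClass C ∧ SumClosed C ∧
    1 < limsup (fun n : ℕ => (cnt (ind C) n : ℝ) ^ (1 / (n : ℝ))) atTop ∧
    limsup (fun n : ℕ => (cnt (ind C) n : ℝ) ^ (1 / (n : ℝ))) atTop < (1 + Real.sqrt 5) / 2 :=
  ⟨C4, isClass_C4, sumClosed_C4, one_lt_limsup, limsup_lt_phi⟩

end Pool.Agent.Results.MP_9e0f03_co.BetweenOneAndPhi
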